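import Pool.Agent.Helper50.AY.St

/-!
# Project AY (MP_b3ce06_al), module UT3: values of irreducible polynomials of degree at least two
-/

set_option autoImplicit false

namespace Pool.Agent.Helper76.AY

open Pool.Agent.Helper50.AY Pool.Agent.Helper43.GD Polynomial

private def mulRing {L : Type} [CommRing L] (N : AddSubgroup L) : Subring L where
  carrier := {z | ∀ y ∈ N, z * y ∈ N}
  one_mem' := by
    intro y hy
    rw [one_mul]
    exact hy
  mul_mem' := by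
    intro a b ha hb y hy
    rw [mul_assoc]
    exact ha _ (hb _ hy)
  zero_mem' := by
    intro y hy
    rw [zero_mul]
    exact N.zero_mem
  add_mem' := by
    intro a b ha hb y hy
    rw [add_mul]
    exact N.add_mem (ha _ hy) (hb _ hy)
  neg_mem' := by
    intro a ha y hy
    rw [neg_mul]
    exact N.neg_mem (ha _ hy)

private theorem inv_mem {L : Type} [CommRing L] (M : Subring L) (z : Lˣ) (h : (z : L) ∈ M) (q : ℕ)
    (hq : 2 ≤ q) (hz : (z : L) ^ q = z) : ((z⁻¹ : Lˣ) : L) ∈ M := by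
  have h1 : z ^ q = z := by
    apply Units.ext
    rw [Units.val_pow_eq_pow_val]
    exact hz
  have h2 : z ^ (q - 2) * z * z = z := by
    rw [← pow_succ, ← pow_succ, show q - 2 + 1 + 1 = q by omega]
    exact h1
  have h3 : z ^ (q - 2) * z = 1 := mul_eq_right.1 h2
  have h4 : z⁻¹ = z ^ (q - 2) := (eq_inv_of_mul_eq_one_left h3).symm
  rw [h4, Units.val_pow_eq_pow_val]
  exact M.pow_mem h _

theorem hUT3 (hUT2 : StUT2) (hGT : StGT) (hND : StND) (hUN1 : StUN1) (hRA : StRA) : StUT3 := by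
  intro L A _ _ Q p _ k x hR hx ev hev f hirr hd2 hdk hlow
  obtain ⟨-, hfrob, -, -, -⟩ := hRA L p k x hR
  have hp5 := hR.five
  have hprime : Prime f := hirr.prime
  have hf0 : f ≠ 0 := hirr.ne_zero
  have hq2 : 2 ≤ p ^ (p ^ (k + 1)) := by
    calc 2 ≤ p := by omega
      _ = p ^ 1 := (pow_one p).symm
      _ ≤ p ^ (p ^ (k + 1)) := Nat.pow_le_pow_right (by omega) (Nat.one_le_pow _ _ (by omega))
  obtain ⟨φ, hφ⟩ := hUN1 L p k x hR ev hev f hf0 hdk
  have hu : ((φ⁻¹ : Lˣ) : L) * ev f = 1 := by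
    rw [← hφ, Units.inv_mul]
  set h : (ZMod p)[X] := X ^ (p ^ (p ^ k)) % f with hh
  -- linear polynomials
  have hgn : ∀ c : ZMod p, (X + C c : (ZMod p)[X]) ≠ 0 := fun c => X_add_C_ne_zero c
  have hgd : ∀ c : ZMod p, (X + C c : (ZMod p)[X]).natDegree < f.natDegree := by
    intro c
    rw [natDegree_X_add_C]
    omega
  have hCd : ∀ c : ZMod p, (C c : (ZMod p)[X]) % f = C c := by
    intro c
    rw [Polynomial.mod_eq_self_iff hf0]
    refine lt_of_le_of_lt degree_C_le ?_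
    rw [← natDegree_pos_iff_degree_pos]
    omega
  have hpow : ∀ c : ZMod p, (X + C c : (ZMod p)[X]) ^ (p ^ (p ^ k)) = X ^ (p ^ (p ^ k)) + C c := by
    intro c
    rw [add_pow_char_pow, ← C_pow, ZMod.pow_card_pow]
  have hmod : ∀ c : ZMod p, (X + C c : (ZMod p)[X]) ^ (p ^ (p ^ k)) % f = h + C c := by
    intro c
    rw [hpow, Polynomial.add_mod, hCd]
  have hne : ∀ c : ZMod p, h + C c ≠ 0 := by
    intro c hc
    rw [← hmod c] at hc
    have h1 : f ∣ (X + C c : (ZMod p)[X]) ^ (p ^ (p ^ k)) := EuclideanDomain.mod_eq_zero.mp hc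
    have h2 : f ∣ (X + C c : (ZMod p)[X]) := hprime.dvd_of_dvd_pow h1
    have h3 := natDegree_le_of_dvd h2 (hgn c)
    have h4 := hgd c
    omega
  have hfd0 : f.natDegree ≠ 0 := by omega
  have hdeg : ∀ c : ZMod p, (h + C c).natDegree < f.natDegree := by
    intro c
    rw [← hmod c]
    exact natDegree_mod_lt _ hfd0
  -- the units
  have hT : ∀ c : ZMod p, ∃ τ ∈ Q.U, ((τ : Lˣ) : L) = ev h + ev (C c) := by
    intro c
    obtain ⟨τ, h1, h2⟩ := hlow (h + C c) (hne c) (hdeg c)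
    exact ⟨τ, h1, by rw [h2, map_add]⟩
  have hG : ∀ c : ZMod p, ∃ γ ∈ Q.U, ((γ : Lˣ) : L) = (x : L) + ev (C c) := by
    intro c
    obtain ⟨γ, h1, h2⟩ := hlow (X + C c) (hgn c) (hgd c)
    exact ⟨γ, h1, by rw [h2, map_add, hev]⟩
  obtain ⟨τ0, hτ0U, hτ0⟩ := hT 0
  obtain ⟨τ1, hτ1U, hτ1⟩ := hT 1
  obtain ⟨γ0, hγ0U, hγ0⟩ := hG 0
  obtain ⟨γ1, hγ1U, hγ1⟩ := hG 1
  have hS : ∀ (c : ZMod p) (τ γ : Lˣ), ((τ : Lˣ) : L) = ev h + ev (C c) →
      ((γ : Lˣ) : L) = (x : L) + ev (C c) → Q.S φ⁻¹ (γ ^ (p ^ (p ^ k)) * τ⁻¹) := by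
    intro c τ γ h1 h2
    refine hUT2 L A Q p x ev hev f hirr hlow φ⁻¹ hu (X + C c) (hgn c) (hgd c) (p ^ (p ^ k)) _ ?_
    rw [hmod c, map_add, ← h1, map_add, hev, ← h2, ← Units.val_mul, inv_mul_cancel_right,
      Units.val_pow_eq_pow_val]
  have hS0 := hS 0 τ0 γ0 hτ0 hγ0
  have hS1 := hS 1 τ1 γ1 hτ1 hγ1
  rw [C_0, map_zero, add_zero] at hτ0 hγ0
  rw [C_1, map_one] at hτ1 hγ1
  have hpx : (γ0 : L) ^ (p ^ (p ^ k)) = (x : L) ^ (p ^ (p ^ k)) := by rw [hγ0]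
  have hpx1 : (γ1 : L) ^ (p ^ (p ^ k)) = (x : L) ^ (p ^ (p ^ k)) + 1 := by
    have h1 := congrArg ev (hpow 1)
    rw [map_pow, map_add, map_add, map_pow, hev, C_1, map_one, ← hγ1] at h1
    exact h1
  have has : 2 * (x : L) ^ (p ^ (p ^ k)) = 2 * (x : L) + 1 := hR.as
  -- the polynomial `2h - 2X - 1`
  have h2ne : (2 : ZMod p) ≠ 0 := by
    intro h0
    have h1 : ((2 : ℕ) : ZMod p) = 0 := by exact_mod_cast h0
    rw [ZMod.natCast_eq_zero_iff] at h1
    have := Nat.le_of_dvd (by norm_num) h1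
    omega
  obtain ⟨π, hπU, hπ⟩ : Q.In (ev (C 2 * h - C 2 * X - 1)) := by
    apply hlow
    · intro h0
      apply hND p k hp5 f hirr hdk
      have h1 : X ^ (p ^ (p ^ k)) = f * (X ^ (p ^ (p ^ k)) / f) + h :=
        (EuclideanDomain.div_add_mod _ _).symm
      refine ⟨C 2 * (X ^ (p ^ (p ^ k)) / f), ?_⟩
      have h2 : C 2 * X ^ (p ^ (p ^ k)) - C 2 * X - 1 = C 2 * (f * (X ^ (p ^ (p ^ k)) / f) + h) -
          C 2 * X - 1 := by rw [← h1]
      rw [h2]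
      linear_combination h0
    · have e1 : (C 2 * h : (ZMod p)[X]).natDegree ≤ f.natDegree - 1 := by
        refine (natDegree_C_mul_le _ _).trans ?_
        have : h.natDegree < f.natDegree := natDegree_mod_lt _ hfd0
        omega
      have e2 : (C 2 * X : (ZMod p)[X]).natDegree ≤ f.natDegree - 1 := by
        refine (natDegree_C_mul_le _ _).trans (natDegree_X_le.trans ?_)
        omega
      have e3 : (1 : (ZMod p)[X]).natDegree ≤ f.natDegree - 1 := by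
        rw [natDegree_one]
        exact Nat.zero_le _
      have e4 : (C 2 * h - C 2 * X - 1 : (ZMod p)[X]).natDegree ≤ f.natDegree - 1 :=
        (natDegree_sub_le_of_le (natDegree_sub_le_of_le e1 e2) e3).trans (by simp)
      omega
  obtain ⟨t2, ht2U, ht2⟩ : Q.In (ev (C 2)) := by
    apply hlow
    · rwa [Ne, C_eq_zero]
    · rw [natDegree_C]
      omega
  have hC2 : ev (C 2) = 2 := by
    have : (C 2 : (ZMod p)[X]) = 2 := by
      rw [show (2 : ZMod p) = 1 + 1 by norm_num, C_add, C_1]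
      norm_num
    rw [this, map_ofNat]
  rw [hC2] at ht2
  rw [map_sub, map_sub, map_mul, map_mul, hC2, hev, map_one, ← hτ0] at hπ
  -- `δ = h(x) - x^ρ`
  have hδ : (((π * t2⁻¹ : Lˣ)) : L) = (τ0 : L) - (x : L) ^ (p ^ (p ^ k)) := by
    have h1 : ((t2 : Lˣ) : L) * ((τ0 : L) - (x : L) ^ (p ^ (p ^ k))) = (π : L) := by
      rw [ht2, hπ]
      linear_combination -has
    rw [Units.val_mul, ← h1, mul_comm ((t2 : Lˣ) : L), Units.mul_inv_cancel_right]
  obtain ⟨δ, hδd⟩ : ∃ δ : Lˣ, δ = π * t2⁻¹ := ⟨_, rfl⟩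
  rw [← hδd] at hδ
  have hδU : δ ∈ Q.U := by
    rw [hδd]
    exact Q.U.mul_mem hπU (Q.U.inv_mem ht2U)
  have hone0 : (((δ * τ0⁻¹ : Lˣ)) : L) = 1 - (((γ0 ^ (p ^ (p ^ k)) * τ0⁻¹ : Lˣ)) : L) := by
    rw [Units.val_mul, Units.val_mul, hδ, Units.val_pow_eq_pow_val, hpx, sub_mul, Units.mul_inv]
  have hone1 : (((δ * τ1⁻¹ : Lˣ)) : L) = 1 - (((γ1 ^ (p ^ (p ^ k)) * τ1⁻¹ : Lˣ)) : L) := by
    rw [Units.val_mul, Units.val_mul, hδ, Units.val_pow_eq_pow_val, hpx1]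
    have e : (τ0 : L) - (x : L) ^ (p ^ (p ^ k)) = (τ1 : L) - ((x : L) ^ (p ^ (p ^ k)) + 1) := by
      rw [hτ0, hτ1]
      ring
    rw [e, sub_mul, Units.mul_inv]
  have huU : φ⁻¹ ∈ Q.U := by
    refine hGT L A Q φ⁻¹ _ hS0 ⟨δ * τ0⁻¹, Q.U.mul_mem hδU (Q.U.inv_mem hτ0U), hone0⟩ ?_
    intro N h1 hst
    have hinv : ∀ z : Lˣ, (z : L) ∈ mulRing N → ((z⁻¹ : Lˣ) : L) ∈ mulRing N := fun z hz =>
      inv_mem (mulRing N) z hz _ hq2 (hfrob (z : L))
    have hm0 : (((γ0 ^ (p ^ (p ^ k)) * τ0⁻¹ : Lˣ)) : L) ∈ mulRing N := fun y hy => hst _ hS0 y hy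
    have hm1 : (((γ1 ^ (p ^ (p ^ k)) * τ1⁻¹ : Lˣ)) : L) ∈ mulRing N := fun y hy => hst _ hS1 y hy
    have hl0 : (((δ * τ0⁻¹)⁻¹ : Lˣ) : L) ∈ mulRing N := by
      apply hinv
      rw [hone0]
      exact (mulRing N).sub_mem (mulRing N).one_mem hm0
    have hl1 : (((δ * τ1⁻¹)⁻¹ : Lˣ) : L) ∈ mulRing N := by
      apply hinv
      rw [hone1]
      exact (mulRing N).sub_mem (mulRing N).one_mem hm1
    have hk : ((δ⁻¹ : Lˣ) : L) ∈ mulRing N := by
      have e : ((δ⁻¹ : Lˣ) : L) = (((δ * τ1⁻¹)⁻¹ : Lˣ) : L) - (((δ * τ0⁻¹)⁻¹ : Lˣ) : L) := by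
        rw [mul_inv, mul_inv, inv_inv, inv_inv, Units.val_mul, Units.val_mul, hτ0, hτ1]
        ring
      rw [e]
      exact (mulRing N).sub_mem hl1 hl0
    have hdm : (δ : L) ∈ mulRing N := by
      have := hinv _ hk
      rwa [inv_inv] at this
    have hτm : (τ0 : L) ∈ mulRing N := by
      have e : (τ0 : L) = (((δ * τ0⁻¹)⁻¹ : Lˣ) : L) * (δ : L) := by
        rw [← Units.val_mul, mul_inv, inv_inv, mul_comm δ⁻¹, inv_mul_cancel_right]
      rw [e]
      exact (mulRing N).mul_mem hl0 hdm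
    have hxm : (x : L) ^ (p ^ (p ^ k)) ∈ mulRing N := by
      have e : (x : L) ^ (p ^ (p ^ k)) = (τ0 : L) - (δ : L) := by
        rw [hδ]
        ring
      rw [e]
      exact (mulRing N).sub_mem hτm hdm
    have h2m : ((t2 : Lˣ) : L) ∈ mulRing N := by
      rw [ht2, show (2 : L) = 1 + 1 by norm_num]
      exact (mulRing N).add_mem (mulRing N).one_mem (mulRing N).one_mem
    have hxM : (x : L) ∈ mulRing N := by
      have e : (x : L) = ((t2⁻¹ : Lˣ) : L) * (((t2 : Lˣ) : L) * (x : L) ^ (p ^ (p ^ k)) - 1) := by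
        have e1 : ((t2 : Lˣ) : L) * (x : L) ^ (p ^ (p ^ k)) - 1 = ((t2 : Lˣ) : L) * (x : L) := by
          rw [ht2]
          linear_combination has
        rw [e1, Units.inv_mul_cancel_left]
      rw [e]
      exact (mulRing N).mul_mem (hinv _ h2m)
        ((mulRing N).sub_mem ((mulRing N).mul_mem h2m hxm) (mulRing N).one_mem)
    exact hR.gn N h1 (fun y hy => hxM y hy)
  refine ⟨φ, ?_, hφ⟩
  have := Q.U.inv_mem huU
  rwa [inv_inv] at this

end Pool.Agent.Helper76.AY
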